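import Pool.Agent.H109Z.Trace

set_option autoImplicit false

namespace Pool.Agent.Results.MP_c22f6b_an.ATraceFails

open MeasureTheory

/-- For every `d ≥ 3` and every `0 < ε < 2` there is a Borel probability measure `μ` on the torus
`ℝ^d / ℤ^d` that is upper `(d - 2 + ε)`-regular for the flat Euclidean distance and for which the
trace inequality fails: for every `C` some Laplace eigenfunction
`u = ∑_{k ∈ S} a_k exp(2πi k·x)`, `|k|² = n` on `S`, has `C ∫ |u|² dx < ∫ |u|² dμ`. -/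
theorem result (d : ℕ) (hd : 3 ≤ d) (ε : ℝ) (h0 : 0 < ε) (h2 : ε < 2) :
    ∃ μ : Measure (Fin d → UnitAddCircle), IsProbabilityMeasure μ ∧
      (∃ C : ℝ, ∀ (x0 : Fin d → UnitAddCircle) (r : ℝ), 0 < r →
        μ {x | Real.sqrt (∑ i, dist (x i) (x0 i) ^ 2) < r} ≤
          ENNReal.ofReal (C * r ^ ((d : ℝ) - 2 + ε))) ∧
      ∀ C : ℝ, ∃ (n : ℕ) (S : Finset (Fin d → ℤ)) (a : (Fin d → ℤ) → ℂ),
        (∀ k ∈ S, ∑ i, k i ^ 2 = n) ∧
        C * ∫ x, ‖∑ k ∈ S, a k * UnitAddTorus.mFourier k x‖ ^ 2 <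
          ∫ x, ‖∑ k ∈ S, a k * UnitAddTorus.mFourier k x‖ ^ 2 ∂μ :=
  Pool.Agent.H109Z.Trace.main d hd ε h0 h2

end Pool.Agent.Results.MP_c22f6b_an.ATraceFails
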